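import Pool.Agent.W889.SR.Stm2

set_option autoImplicit false

namespace Pool.Agent.W959.SR

open Set Ordinal Pool.Agent.W889.SR

lemma prj_pos {A : Type} {r : A → A → Prop} {x z : A} (h : r x z) : prj r x z = z := by
  unfold prj
  exact if_pos h

lemma prj_neg {A : Type} {r : A → A → Prop} {x z : A} (h : ¬ r x z) : prj r x z = x := by
  unfold prj
  exact if_neg h

lemma child_eq {A : Type} {r : A → A → Prop} (hr : IsForest r) {x c c' z : A} (hc : Ch r x c)
    (hc' : Ch r x c') (h : r c z) (h' : r c' z) : c = c' := by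
  rcases hr.chain z c c' h h' with h1 | h1
  · rcases hc'.2.2 c hc.1 h1 with h2 | h2
    · exact absurd h2.symm hc.2.1
    · exact h2
  · rcases hc.2.2 c' hc'.1 h1 with h2 | h2
    · exact absurd h2.symm hc'.2.1
    · exact h2.symm

lemma not_child {A : Type} {r : A → A → Prop} (hr : IsForest r) {x c : A} (hc : Ch r x c) :
    ¬ r c x := fun h => hc.2.1 (hr.antisymm x c hc.1 h)

lemma mtch_sameQf {γ : Ordinal.{0}} {A B : Type} {r : A → A → Prop} {s : B → B → Prop}
    (hr : IsForest r) (hs : IsForest s) {x : A} {y : B} {P : Set A} {Q : Set B}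
    (hP : ∀ c ∈ P, Ch r x c) (hQ : ∀ d ∈ Q, Ch s y d) {ι : Type} {a : ι → A} {b : ι → B}
    {m : List (A × B)} (h : Mtch γ r s x y P Q a b m) : SameQf r a s b := by
  constructor
  · intro i j
    rcases h.cov i with ⟨h1, h2⟩ | ⟨p, hp, h1, h2⟩
    · rw [h1, h2]
      refine iff_of_true ?_ ?_
      · rcases h.cov j with ⟨h3, h4⟩ | ⟨p, hp, h3, h4⟩
        · rw [h3]; exact hr.refl x
        · exact hr.trans _ _ _ (hP _ (h.mem p hp).1).1 h3
      · rcases h.cov j with ⟨h3, h4⟩ | ⟨p, hp, h3, h4⟩
        · rw [h4]; exact hs.refl y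
        · exact hs.trans _ _ _ (hQ _ (h.mem p hp).2).1 h4
    · by_cases h5 : r p.1 (a j)
      · have h6 := (h.iff p hp j).1 h5
        have h7 := (h.bf p hp).sameQf.1 (some i) (some j)
        simp only [Option.elim_some] at h7
        rwa [prj_pos h1, prj_pos h5, prj_pos h2, prj_pos h6] at h7
      · have h6 : ¬ s p.2 (b j) := fun h => h5 ((Mtch.iff ‹_› p hp j).2 h)
        exact iff_of_false (fun h7 => h5 (hr.trans _ _ _ h1 h7))
          (fun h7 => h6 (hs.trans _ _ _ h2 h7))
  · intro i j
    rcases h.cov i with ⟨h1, h2⟩ | ⟨p, hp, h1, h2⟩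
    · rw [h1, h2]
      rcases h.cov j with ⟨h3, h4⟩ | ⟨p, hp, h3, h4⟩
      · rw [h3, h4]; exact iff_of_true rfl rfl
      · refine iff_of_false ?_ ?_
        · intro h5
          rw [← h5] at h3
          exact not_child hr (hP _ (h.mem p hp).1) h3
        · intro h5
          rw [← h5] at h4
          exact not_child hs (hQ _ (h.mem p hp).2) h4
    · by_cases h5 : r p.1 (a j)
      · have h6 := (h.iff p hp j).1 h5
        have h7 := (h.bf p hp).sameQf.2 (some i) (some j)
        simp only [Option.elim_some] at h7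
        rwa [prj_pos h1, prj_pos h5, prj_pos h2, prj_pos h6] at h7
      · have h6 : ¬ s p.2 (b j) := fun h => h5 ((Mtch.iff ‹_› p hp j).2 h)
        exact iff_of_false (fun h7 => h5 (h7 ▸ h1)) (fun h7 => h6 (h7 ▸ h2))

lemma mtch_extend {γ : Ordinal.{0}} {A B : Type} {r : A → A → Prop} {s : B → B → Prop}
    (hr : IsForest r) (hs : IsForest s) {x : A} {y : B} {P : Set A} {Q : Set B}
    (hP : ∀ c ∈ P, Ch r x c) (hQ : ∀ d ∈ Q, Ch s y d)
    (hinf : ∀ d ∈ Q, {c | c ∈ P ∧ CE γ r c s d}.Infinite) {ι : Type} {a : ι → A} {b : ι → B}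
    {m : List (A × B)} (h : Mtch γ r s x y P Q a b m) :
    ∀ D : List B, (∀ z ∈ D, z = y ∨ ∃ d ∈ Q, s d z) → ∃ m' : List (A × B),
      Mtch γ r s x y P Q a b m' ∧ ∀ z ∈ D, z = y ∨ ∃ p ∈ m', s p.2 z := by
  intro D
  induction D with
  | nil => exact fun _ => ⟨m, h, fun z hz => by simp at hz⟩
  | cons z D ih =>
    intro hD
    obtain ⟨m', hm', hc'⟩ := ih (fun w hw => hD w (List.mem_cons_of_mem _ hw))
    rcases hD z List.mem_cons_self with hz | ⟨q, hq, hqz⟩
    · refine ⟨m', hm', fun w hw => ?_⟩
      rcases List.mem_cons.1 hw with rfl | hw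
      · exact Or.inl hz
      · exact hc' w hw
    · by_cases hex : ∃ p ∈ m', p.2 = q
      · obtain ⟨p, hp, rfl⟩ := hex
        refine ⟨m', hm', fun w hw => ?_⟩
        rcases List.mem_cons.1 hw with rfl | hw
        · exact Or.inr ⟨p, hp, hqz⟩
        · exact hc' w hw
      · have hfin : {c : A | ∃ p ∈ m', p.1 = c}.Finite := by
          have : {c : A | ∃ p ∈ m', p.1 = c} = ((fun p : A × B => p.1) '' {p | p ∈ m'}) := by
            ext c
            simp
          rw [this]
          exact (List.finite_toSet m').image _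
        obtain ⟨c, ⟨hcP, hCE⟩, hcn⟩ := (hinf q hq).exists_notMem_finite hfin
        have hna : ∀ i, ¬ r c (a i) := by
          intro i hi
          rcases hm'.cov i with ⟨h1, h2⟩ | ⟨p, hp, h1, h2⟩
          · rw [h1] at hi
            exact not_child hr (hP c hcP) hi
          · exact hcn ⟨p, hp, child_eq hr (hP _ (hm'.mem p hp).1) (hP c hcP) h1 hi⟩
        have hnb : ∀ i, ¬ s q (b i) := by
          intro i hi
          rcases hm'.cov i with ⟨h1, h2⟩ | ⟨p, hp, h1, h2⟩
          · rw [h2] at hi
            exact not_child hs (hQ q hq) hi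
          · exact hex ⟨p, hp, child_eq hs (hQ _ (hm'.mem p hp).2) (hQ q hq) h2 hi⟩
        refine ⟨(c, q) :: m', ⟨?_, ?_, ?_, ?_, ?_⟩, fun w hw => ?_⟩
        · intro p hp
          rcases List.mem_cons.1 hp with rfl | hp
          · exact ⟨hcP, hq⟩
          · exact hm'.mem p hp
        · intro p hp p' hp'
          rcases List.mem_cons.1 hp with rfl | hp
          · rcases List.mem_cons.1 hp' with rfl | hp'
            · exact iff_of_true rfl rfl
            · exact iff_of_false (fun h => hcn ⟨p', hp', h.symm⟩) (fun h => hex ⟨p', hp', h.symm⟩)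
          · rcases List.mem_cons.1 hp' with rfl | hp'
            · exact iff_of_false (fun h => hcn ⟨p, hp, h⟩) (fun h => hex ⟨p, hp, h⟩)
            · exact hm'.inj p hp p' hp'
        · intro i
          rcases hm'.cov i with h1 | ⟨p, hp, h1⟩
          · exact Or.inl h1
          · exact Or.inr ⟨p, List.mem_cons_of_mem _ hp, h1⟩
        · intro p hp i
          rcases List.mem_cons.1 hp with rfl | hp
          · exact iff_of_false (hna i) (hnb i)
          · exact hm'.iff p hp i
        · intro p hp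
          rcases List.mem_cons.1 hp with rfl | hp
          · have e1 : (fun o : Option ι => o.elim (c, q).1 (fun i => prj r (c, q).1 (a i))) =
                (fun _ : Unit => c) ∘ (fun _ => ()) := by
              funext o
              cases o with
              | none => rfl
              | some i => exact prj_neg (hna i)
            have e2 : (fun o : Option ι => o.elim (c, q).2 (fun i => prj s (c, q).2 (b i))) =
                (fun _ : Unit => q) ∘ (fun _ => ()) := by
              funext o
              cases o with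
              | none => rfl
              | some i => exact prj_neg (hnb i)
            rw [e1, e2]
            exact hCE.1.reindex _
          · exact hm'.bf p hp
        · rcases List.mem_cons.1 hw with rfl | hw
          · exact Or.inr ⟨(c, q), List.mem_cons_self, hqz⟩
          · rcases hc' w hw with h1 | ⟨p, hp, h1⟩
            · exact Or.inl h1
            · exact Or.inr ⟨p, List.mem_cons_of_mem _ hp, h1⟩

theorem fr : FR_stmt := by
  intro γ
  induction γ using Ordinal.induction with
  | h γ ih =>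
    intro A B r s hr hs x y P Q hP hQ hi1 hi2 ι a b m h
    rw [BF_iff]
    refine ⟨mtch_sameQf hr hs hP hQ h, fun γ' hγ k d hd => ?_⟩
    obtain ⟨m', hm', hc'⟩ := mtch_extend hr hs hP hQ hi2 h (List.ofFn d) (by
      intro z hz
      rw [List.mem_ofFn] at hz
      obtain ⟨l, rfl⟩ := hz
      exact hd l)
    have hc2 : ∀ l, d l = y ∨ ∃ p ∈ m', s p.2 (d l) := fun l =>
      hc' (d l) (List.mem_ofFn.2 ⟨l, rfl⟩)
    have hex : ∀ p : A × B, ∃ e : Fin k → A, p ∈ m' → (∀ l, r p.1 (e l)) ∧
        BF γ' s {z | s p.2 z} (Sum.elim (fun o : Option ι => o.elim p.2 (fun i => prj s p.2 (b i)))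
          (fun l => prj s p.2 (d l))) r {z | r p.1 z}
          (Sum.elim (fun o : Option ι => o.elim p.1 (fun i => prj r p.1 (a i))) e) := by
      intro p
      by_cases hp : p ∈ m'
      · have h1 := hm'.bf p hp
        rw [BF_iff] at h1
        obtain ⟨e, he, hbf⟩ := h1.2 γ' hγ k (fun l => prj s p.2 (d l)) (by
          intro l
          by_cases h2 : s p.2 (d l)
          · rw [prj_pos h2]; exact h2
          · rw [prj_neg h2]; exact hs.refl _)
        exact ⟨e, fun _ => ⟨he, hbf⟩⟩
      · exact ⟨fun _ => x, fun h => absurd h hp⟩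
    choose e he using hex
    have hpl' : ∀ l, ∃ p : A × B, d l ≠ y → p ∈ m' ∧ s p.2 (d l) := by
      intro l
      rcases hc2 l with h1 | ⟨p, hp, h1⟩
      · exact ⟨(x, y), fun h => absurd h1 h⟩
      · exact ⟨p, fun _ => ⟨hp, h1⟩⟩
    choose pl hpl using hpl'
    have hcd : ∃ c : Fin k → A, (∀ l, d l = y → c l = x) ∧ ∀ l, d l ≠ y → c l = e (pl l) l := by
      classical
      refine ⟨fun l => if d l = y then x else e (pl l) l, fun l hl => if_pos hl,
        fun l hl => if_neg hl⟩
    obtain ⟨c, hcy, hcn⟩ := hcd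
    have hrc : ∀ l, d l ≠ y → r (pl l).1 (c l) := by
      intro l hl
      rw [hcn l hl]
      exact (he (pl l) (hpl l hl).1).1 l
    have hiff : ∀ p ∈ m', ∀ l, s p.2 (d l) ↔ r p.1 (c l) := by
      intro p hp l
      by_cases hl : d l = y
      · rw [hcy l hl, hl]
        exact iff_of_false (not_child hs (hQ _ (hm'.mem p hp).2))
          (not_child hr (hP _ (hm'.mem p hp).1))
      · have h1 := hpl l hl
        constructor
        · intro h2
          have h3 : p.2 = (pl l).2 :=
            child_eq hs (hQ _ (hm'.mem p hp).2) (hQ _ (hm'.mem _ h1.1).2) h2 h1.2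
          rw [(hm'.inj p hp _ h1.1).2 h3]
          exact hrc l hl
        · intro h2
          have h3 : p.1 = (pl l).1 :=
            child_eq hr (hP _ (hm'.mem p hp).1) (hP _ (hm'.mem _ h1.1).1) h2 (hrc l hl)
          rw [(hm'.inj p hp _ h1.1).1 h3]
          exact h1.2
    refine ⟨c, fun l => ?_, ?_⟩
    · by_cases hl : d l = y
      · exact Or.inl (hcy l hl)
      · exact Or.inr ⟨(pl l).1, (hm'.mem _ (hpl l hl).1).1, hrc l hl⟩
    have hce : ∀ c d, CE γ r c s d → CE γ' s d r c := fun c d h =>
      ⟨h.2.mono hγ.le, h.1.mono hγ.le⟩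
    refine ih γ' hγ B A s r hs hr y x Q P hQ hP
      (fun q hq => (hi2 q hq).mono fun c hc => ⟨hc.1, hce _ _ hc.2⟩)
      (fun c hc => (hi1 c hc).mono fun q hq => ⟨hq.1, hce _ _ hq.2⟩)
      (ι ⊕ Fin k) (Sum.elim b d) (Sum.elim a c) (m'.map Prod.swap) ⟨?_, ?_, ?_, ?_, ?_⟩
    · intro p hp
      obtain ⟨p0, hp0, rfl⟩ := List.mem_map.1 hp
      exact ⟨(hm'.mem p0 hp0).2, (hm'.mem p0 hp0).1⟩
    · intro p hp q hq
      obtain ⟨p0, hp0, rfl⟩ := List.mem_map.1 hp
      obtain ⟨q0, hq0, rfl⟩ := List.mem_map.1 hq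
      exact (hm'.inj p0 hp0 q0 hq0).symm
    · intro i
      rcases i with i | l
      · rcases hm'.cov i with ⟨h1, h2⟩ | ⟨p, hp, h1, h2⟩
        · exact Or.inl ⟨h2, h1⟩
        · exact Or.inr ⟨p.swap, List.mem_map.2 ⟨p, hp, rfl⟩, h2, h1⟩
      · by_cases hl : d l = y
        · exact Or.inl ⟨hl, hcy l hl⟩
        · exact Or.inr ⟨(pl l).swap, List.mem_map.2 ⟨pl l, (hpl l hl).1, rfl⟩, (hpl l hl).2,
            hrc l hl⟩
    · intro p hp i
      obtain ⟨p0, hp0, rfl⟩ := List.mem_map.1 hp
      rcases i with i | l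
      · exact (hm'.iff p0 hp0 i).symm
      · exact hiff p0 hp0 l
    · intro p hp
      obtain ⟨p0, hp0, rfl⟩ := List.mem_map.1 hp
      have h1 := (he p0 hp0).2
      have hel : ∀ l, e p0 l = prj r p0.1 (c l) := by
        intro l
        by_cases h2 : r p0.1 (c l)
        · have h3 := (hiff p0 hp0 l).2 h2
          have hl : d l ≠ y := by
            intro h4
            rw [h4] at h3
            exact not_child hs (hQ _ (hm'.mem p0 hp0).2) h3
          have h4 := hpl l hl
          have h5 : p0.2 = (pl l).2 :=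
            child_eq hs (hQ _ (hm'.mem p0 hp0).2) (hQ _ (hm'.mem _ h4.1).2) h3 h4.2
          have h6 : p0 = pl l := Prod.ext ((hm'.inj p0 hp0 _ h4.1).2 h5) h5
          rw [prj_pos h2, hcn l hl, ← h6]
        · have h3 : ¬ s p0.2 (d l) := fun h => h2 ((hiff p0 hp0 l).1 h)
          have h4 := h1.sameQf.2 (Sum.inr l) (Sum.inl none)
          simp only [Sum.elim_inr, Sum.elim_inl, Option.elim_none] at h4
          rw [prj_neg h2]
          exact h4.1 (prj_neg h3)
      have h5 := h1.reindex (fun o : Option (ι ⊕ Fin k) => o.elim (Sum.inl none)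
        (Sum.elim (fun i => Sum.inl (some i)) Sum.inr) : Option (ι ⊕ Fin k) → Option ι ⊕ Fin k)
      have e1 : (Sum.elim (fun o : Option ι => o.elim p0.2 (fun i => prj s p0.2 (b i)))
          (fun l => prj s p0.2 (d l))) ∘ (fun o : Option (ι ⊕ Fin k) => o.elim (Sum.inl none)
        (Sum.elim (fun i => Sum.inl (some i)) Sum.inr) : Option (ι ⊕ Fin k) → Option ι ⊕ Fin k) =
          fun o => o.elim p0.swap.1 (fun i => prj s p0.swap.1 (Sum.elim b d i)) := by
        funext o
        rcases o with _ | i | l <;> rfl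
      have e2 : (Sum.elim (fun o : Option ι => o.elim p0.1 (fun i => prj r p0.1 (a i)))
          (e p0)) ∘ (fun o : Option (ι ⊕ Fin k) => o.elim (Sum.inl none)
        (Sum.elim (fun i => Sum.inl (some i)) Sum.inr) : Option (ι ⊕ Fin k) → Option ι ⊕ Fin k) =
          fun o => o.elim p0.swap.2 (fun i => prj r p0.swap.2 (Sum.elim a c i)) := by
        funext o
        rcases o with _ | i | l
        · rfl
        · rfl
        · exact hel l
      rw [e1, e2] at h5
      exact h5

end Pool.Agent.W959.SR
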